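import Pool.Agent.Lib.MP_7217b8_al_h23.Conrad

/-!
# Central extensions of soluble and of elementary amenable groups

Let `G` be an orderable group all of whose right orders are Conrad right orders. Then every
subgroup of `G` which is soluble, or lies in the elementary class (the class generated by abelian
and periodic groups; it contains all elementary amenable groups), is locally nilpotent.
Consequently, if `G` itself is soluble, or elementary amenable, or just has the property that any
two elements lie in such a subgroup, then every right order on every central extension of `G` is a
Conrad right order.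
-/

namespace Pool.Agent.Results.MP_7217b8_al.ElementaryCase

open Pool.Agent.Lib.MP_7217b8_al

universe u v

theorem result (G : Type u) [Group G] (hG : Orderable G) (hC : RightOrdersConrad G) :
    (∀ H : Subgroup G, (Group.IsSolvable H ∨ Elementary H) → ∀ F : Set G, F.Finite → F ⊆ H →
      Group.IsNilpotent (Subgroup.closure F)) ∧
    ((∀ f g : G, ∃ H : Subgroup G, f ∈ H ∧ g ∈ H ∧ (Group.IsSolvable H ∨ Elementary H)) →
      ∀ (K : Type v) [Group K] (π : K →* G), Function.Surjective π →
        π.ker ≤ Subgroup.center K → RightOrdersConrad K) := by
  have h1 : ∀ H : Subgroup G, (Group.IsSolvable H ∨ Elementary H) → ∀ F : Set G, F.Finite →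
      F ⊆ H → Group.IsNilpotent (Subgroup.closure F) := by
    intro H hH F hF hFH
    have hE : Elementary H := by
      rcases hH with hH | hH
      · exact elementary_of_solvable H
      · exact hH
    exact (inX_of hG hC).locally_nilpotent (elemClass_of_elementary hE) hF hFH
  refine ⟨h1, ?_⟩
  intro hE K _ π _ hker
  apply conrad_of_central π hker
  intro f g
  obtain ⟨H, hf, hg, hH⟩ := hE f g
  apply h1 H hH _ (by simp)
  rintro x (rfl | hx)
  · exact hf
  · rw [Set.mem_singleton_iff] at hx
    rw [hx]
    exact hg

end Pool.Agent.Results.MP_7217b8_al.ElementaryCase
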